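import Pool.Agent.H537ES.Digraph

set_option autoImplicit false

/-!
# Oriented trees in digraphs with a large balanced subdigraph, with a gain at the leaves

The argument of the starting files `Helper903.ES`, `H537ES` (random prefixes), with the weights of a
balanced subdigraph `B` of the host `D`; at the leaves of the tree all the arcs of `D` are used, and
the expectations are evaluated exactly.
-/

namespace Run7.h569.SU

open Finset ES903 H537ES

variable {V W : Type*}

/-- the number of the leaves of a rooted tree, the root not counted -/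
def lv : RT W → ℕ
  | .node _ => 0
  | .graft (.node _) B => 1 + lv B
  | .graft (.graft A1 A2) B => lv (.graft A1 A2) + lv B

theorem lv_le_size (t : RT W) : lv t ≤ t.size := by
  induction t with
  | node w => exact le_rfl
  | graft A B ihA ihB =>
    cases A with
    | node w => simp only [lv, RT.size] at *; omega
    | graft A1 A2 => simp only [lv, RT.size] at *; omega

open Classical in
/-- the number of the arcs of `D` at `u`, forwards (`true`) or backwards (`false`) -/
noncomputable def dg [Fintype V] (D : V → V → Prop) (b : Bool) (u : V) : ℕ :=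
  (univ.filter (fun v => if b then D u v else D v u)).card

open Classical in
/-- the exact value at a leaf -/
theorem leaf_val [Fintype V] [DecidableEq V] (r : V → V → Prop) (u : V) (w : W)
    (R : W → W → V → V → Prop) :
    (((univ.filter (fun v => r u v)).card : ℚ) + 1) *
      E univ (Fail (PlantR r (EmbR R (RT.node w)) u)) = (Fintype.card V : ℚ) + 1 := by
  have e1 := E_up (univ : Finset V) (Fail (PlantR r (EmbR R (RT.node w)) u))
  have h0 : Fail (PlantR r (EmbR R (RT.node w)) u) ∅ = 1 := by
    unfold Fail
    rw [if_neg]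
    rintro ⟨v, hv, -⟩
    simp at hv
  have h1 : ∀ v : V, E univ (Fail (PlantR r (EmbR R (RT.node w)) u)) -
      E univ (fun S => Fail (PlantR r (EmbR R (RT.node w)) u) (insert v S)) =
      if r u v then E univ (Fail (PlantR r (EmbR R (RT.node w)) u)) else 0 := by
    intro v
    split_ifs with hv
    · have : (fun S : Finset V => Fail (PlantR r (EmbR R (RT.node w)) u) (insert v S)) = fun _ => 0 := by
        funext S
        unfold Fail
        rw [if_pos]
        exact ⟨v, Finset.mem_insert_self _ _, hv, trivial⟩
      rw [this]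
      simp [E]
    · have : (fun S : Finset V => Fail (PlantR r (EmbR R (RT.node w)) u) (insert v S)) =
          Fail (PlantR r (EmbR R (RT.node w)) u) := by
        funext S
        have hiff : PlantR r (EmbR R (RT.node w)) u (insert v S) ↔
            PlantR r (EmbR R (RT.node w)) u S := by
          constructor
          · rintro ⟨x, hx, hx2, hx3⟩
            rcases Finset.mem_insert.1 hx with rfl | hx
            · exact absurd hx2 hv
            · exact ⟨x, hx, hx2, trivial⟩
          · rintro ⟨x, hx, hx2, hx3⟩
            exact ⟨x, Finset.mem_insert_of_mem hx, hx2, trivial⟩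
        unfold Fail
        simp only [hiff]
      rw [this, sub_self]
  rw [Finset.sum_congr rfl (fun v _ => h1 v), h0, ← Finset.sum_filter, Finset.sum_const,
    nsmul_eq_mul, Finset.card_univ] at e1
  linarith

open Classical in
/-- the cost of a rooted oriented tree -/
theorem costB [Fintype V] [DecidableEq V] (D B : V → V → Prop) (hBD : ∀ u v, B u v → D u v)
    (A : W → W → Prop) (hA : ∀ a b, A a b → ¬ A b a)
    (hbal : ∀ v, dg B true v = dg B false v) (lam : ℚ)
    (hlam : ∀ b, ∑ u, ((dg B true u : ℚ) + 1) / ((dg D b u : ℚ) + 1) ≤ lam) (t : RT W) :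
    (∀ a b, t.Edge a b → A a b ∨ A b a) →
    ∑ u, ((dg B true u : ℚ) + 1) * E univ (Fail (EmbR (Rel2 D A) t u)) ≤
      (((t.size : ℚ) - lv t) * Fintype.card V + lv t * lam) * ((Fintype.card V : ℚ) + 1) := by
  have hE : ∀ (f : Finset V → Prop), 0 ≤ E univ (Fail f) := fun f => E_nonneg _ (Fail_nonneg f)
  -- the relation along an edge of the tree
  have hrel : ∀ (Q : V → V → Prop) (a b : W), (A a b ∨ A b a) → ∃ c : Bool,
      ∀ u v, Rel2 Q A a b u v ↔ (if c then Q u v else Q v u) := by
    intro Q a b hab
    rcases hab with h | h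
    · refine ⟨true, fun u v => ?_⟩
      rw [Rel2, if_pos rfl]
      exact ⟨fun h2 => h2.elim (fun h3 => h3.2) (fun h3 => absurd h3.1 (hA a b h)),
        fun h2 => Or.inl ⟨h, h2⟩⟩
    · refine ⟨false, fun u v => ?_⟩
      rw [Rel2, if_neg (by simp)]
      exact ⟨fun h2 => h2.elim (fun h3 => absurd h3.1 (hA b a h)) (fun h3 => h3.2),
        fun h2 => Or.inr ⟨h, h2⟩⟩
  induction t with
  | node w =>
    intro _
    have : ∀ u, E univ (Fail (EmbR (Rel2 D A) (RT.node w : RT W) u)) = 0 := by
      intro u
      simp [E, Fail, EmbR]
    simp [this, RT.size, lv]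
  | graft T1 T2 ih1 ih2 =>
    intro hw
    have h1 := ih1 (fun a b hab => hw a b (Or.inl hab))
    have h2 := ih2 (fun a b hab => hw a b (Or.inr (Or.inl hab)))
    have hab := hw T2.root T1.root (Or.inr (Or.inr ⟨rfl, rfl⟩))
    have hg : ∑ u, ((dg B true u : ℚ) + 1) * E univ (Fail (EmbR (Rel2 D A) (RT.graft T1 T2) u)) ≤
        ∑ u, ((dg B true u : ℚ) + 1) *
          E univ (Fail (PlantR (Rel2 D A T2.root T1.root) (EmbR (Rel2 D A) T1) u)) +
        ∑ u, ((dg B true u : ℚ) + 1) * E univ (Fail (EmbR (Rel2 D A) T2 u)) := by
      rw [← Finset.sum_add_distrib]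
      apply Finset.sum_le_sum
      intro u _
      rw [← mul_add]
      apply mul_le_mul_of_nonneg_left _ (by positivity)
      exact glue univ _ _
    cases T1 with
    | node w =>
      -- a leaf
      obtain ⟨c, hc⟩ := hrel D _ _ hab
      have hl : ∑ u, ((dg B true u : ℚ) + 1) *
          E univ (Fail (PlantR (Rel2 D A T2.root (RT.node w).root) (EmbR (Rel2 D A) (RT.node w)) u)) ≤
          lam * ((Fintype.card V : ℚ) + 1) := by
        refine le_trans (le_of_eq ?_) (mul_le_mul_of_nonneg_right (hlam c) (by positivity))
        rw [Finset.sum_mul]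
        refine Finset.sum_congr rfl fun u _ => ?_
        have h3 := leaf_val (Rel2 D A T2.root (RT.node w).root) u w (Rel2 D A)
        have h4 : (univ.filter (fun v => Rel2 D A T2.root (RT.node w).root u v)).card = dg D c u := by
          unfold dg
          congr 1
          ext v
          simp only [Finset.mem_filter, Finset.mem_univ, true_and]
          exact hc u v
        rw [h4] at h3
        have h5 : (0 : ℚ) < (dg D c u : ℚ) + 1 := by positivity
        rw [← h3]
        field_simp
      have h3 : ((RT.graft (RT.node w) T2).size : ℚ) = T2.size + 1 := by simp [RT.size]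
      have h4 : (lv (RT.graft (RT.node w) T2) : ℚ) = lv T2 + 1 := by
        simp only [lv]
        push_cast
        ring
      rw [h3, h4]
      refine hg.trans ?_
      have h5 : ∑ u, ((dg B true u : ℚ) + 1) * E univ (Fail (EmbR (Rel2 D A) T2 u)) ≤ _ := h2
      nlinarith [hl, h5]
    | graft T3 T4 =>
      obtain ⟨c, hc⟩ := hrel B _ _ hab
      have h3 := plantR (Rel2 B A T2.root (RT.graft T3 T4).root) (EmbR (Rel2 D A) (RT.graft T3 T4))
        (PlantR (Rel2 D A T2.root (RT.graft T3 T4).root) (EmbR (Rel2 D A) (RT.graft T3 T4)))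
        (EmbR_mono (Rel2 D A) _) (PlantR_mono (EmbR_mono (Rel2 D A) _)) (by
          intro u v S huv hE2
          refine ⟨v, Finset.mem_insert_self _ _, ?_, EmbR_mono (Rel2 D A) _ v _ _ ?_ hE2⟩
          · rcases huv with ⟨q1, q2⟩ | ⟨q1, q2⟩
            · exact Or.inl ⟨q1, hBD _ _ q2⟩
            · exact Or.inr ⟨q1, hBD _ _ q2⟩
          · exact Finset.erase_subset_erase _ (Finset.subset_insert _ _))
      have hbal' : ∀ (b : Bool) u, dg B b u = dg B true u := by
        intro b u
        cases b
        · exact (hbal u).symm
        · rfl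
      have h4 : ∀ u, (univ.filter (fun v => Rel2 B A T2.root (RT.graft T3 T4).root u v)).card =
          dg B true u := by
        intro u
        rw [← hbal' c u]
        unfold dg
        congr 1
        ext v
        simp only [Finset.mem_filter, Finset.mem_univ, true_and]
        exact hc u v
      have h5 : ∀ v, (univ.filter (fun u => Rel2 B A T2.root (RT.graft T3 T4).root u v)).card =
          dg B true v := by
        intro v
        rw [← hbal' (!c) v]
        unfold dg
        congr 1
        ext u
        simp only [Finset.mem_filter, Finset.mem_univ, true_and]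
        rw [hc u v]
        cases c <;> simp
      simp only [h4, h5] at h3
      have h6 : ((RT.graft (RT.graft T3 T4) T2).size : ℚ) = (RT.graft T3 T4).size + T2.size + 1 := by
        simp [RT.size]
      have h7 : (lv (RT.graft (RT.graft T3 T4) T2) : ℚ) = lv (RT.graft T3 T4) + lv T2 := by
        simp only [lv]
        push_cast
        ring
      rw [h6, h7]
      refine hg.trans ?_
      nlinarith [h1, h2, h3]

open Classical in
/-- **Embedding.** -/
theorem embed_RT [Fintype V] [DecidableEq V] [DecidableEq W] (D B : V → V → Prop)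
    (hD : ∀ v, ¬ D v v) (hBD : ∀ u v, B u v → D u v)
    (A : W → W → Prop) (hA : ∀ a b, A a b → ¬ A b a)
    (hbal : ∀ v, dg B true v = dg B false v) (lam : ℚ)
    (hlam : ∀ b, ∑ u, ((dg B true u : ℚ) + 1) / ((dg D b u : ℚ) + 1) ≤ lam) (t : RT W)
    (ht : t.Good) (hw : ∀ a b, t.Edge a b → A a b ∨ A b a)
    (hsum : ((t.size : ℚ) - lv t) * Fintype.card V + lv t * lam <
      ∑ u, ((dg B true u : ℚ) + 1)) :
    ∃ f : W → V, Set.InjOn f t.verts ∧ ∀ a b, t.Edge a b → Rel2 D A a b (f a) (f b) := by
  by_contra hcon
  have hR : ∀ a b u, ¬ Rel2 D A a b u u := by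
    rintro a b u (⟨-, h⟩ | ⟨-, h⟩) <;> exact hD u h
  have hno : ∀ u S, ¬ EmbR (Rel2 D A) t u S := by
    intro u S hS
    obtain ⟨f, -, -, h1, h2⟩ := extractR (Rel2 D A) hR t ht u S hS
    exact hcon ⟨f, h1, h2⟩
  have hall : ∀ u, E univ (Fail (EmbR (Rel2 D A) t u)) = (Fintype.card V : ℚ) + 1 := by
    intro u
    have : Fail (EmbR (Rel2 D A) t u) = fun _ => 1 := by
      funext S
      simp [Fail, hno u S]
    rw [this, E_one, Finset.card_univ]
  have hc := costB D B hBD A hA hbal lam hlam t hw
  simp only [hall] at hc
  rw [← Finset.sum_mul] at hc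
  have hn : (0:ℚ) < (Fintype.card V : ℚ) + 1 := by positivity
  have hc2 := le_of_mul_le_mul_right hc hn
  linarith

end Run7.h569.SU
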