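import Pool.Agent.Run7.h569.SU.Core

set_option autoImplicit false

namespace Run7.h569.SU

open Finset ES903 H537ES

variable {V W : Type*}

/-- the leaves, the root not counted -/
def lset [DecidableEq W] : RT W → Finset W
  | .node _ => ∅
  | .graft (.node w) B => insert w (lset B)
  | .graft (.graft A1 A2) B => lset (.graft A1 A2) ∪ lset B

theorem lset_card [DecidableEq W] (t : RT W) : (lset t).card ≤ lv t := by
  induction t with
  | node w => exact le_rfl
  | graft A B ihA ihB =>
    cases A with
    | node w =>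
      simp only [lset, lv]
      refine (Finset.card_insert_le _ _).trans ?_
      omega
    | graft A1 A2 =>
      simp only [lset, lv] at *
      refine (Finset.card_union_le _ _).trans ?_
      omega

theorem has_child [DecidableEq W] (t : RT W) : ∀ w ∈ t.verts, w ≠ t.root → w ∉ lset t →
    ∃ b, t.Edge w b := by
  induction t with
  | node w =>
    intro x hx hne
    exact absurd (Finset.mem_singleton.mp hx) hne
  | graft A B ihA ihB =>
    intro x hx hne hl
    rcases Finset.mem_union.mp hx with hxA | hxB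
    · cases A with
      | node w =>
        exfalso
        apply hl
        simp only [lset]
        rw [Finset.mem_singleton.mp hxA]
        exact Finset.mem_insert_self _ _
      | graft A1 A2 =>
        simp only [lset, Finset.mem_union, not_or] at hl
        by_cases hr : x = (RT.graft A1 A2).root
        · -- the root of a tree with an edge has a child
          refine ⟨A1.root, Or.inl (Or.inr (Or.inr ⟨hr, rfl⟩))⟩
        · obtain ⟨b, hb⟩ := ihA x hxA hr (by simpa only [lset] using hl.1)
          exact ⟨b, Or.inl hb⟩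
    · by_cases hr : x = B.root
      · exact absurd hr hne
      · have hl2 : x ∉ lset B := by
          intro h
          apply hl
          cases A with
          | node w => simp only [lset]; exact Finset.mem_insert_of_mem h
          | graft A1 A2 => simp only [lset]; exact Finset.mem_union_right _ h
        obtain ⟨b, hb⟩ := ihB x hxB hr hl2
        exact ⟨b, Or.inr (Or.inl hb)⟩

theorem has_parent [DecidableEq W] (t : RT W) : ∀ w ∈ t.verts, w ≠ t.root → ∃ a, t.Edge a w := by
  induction t with
  | node w =>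
    intro x hx hne
    exact absurd (Finset.mem_singleton.mp hx) hne
  | graft A B ihA ihB =>
    intro x hx hne
    rcases Finset.mem_union.mp hx with hxA | hxB
    · by_cases hr : x = A.root
      · exact ⟨B.root, Or.inr (Or.inr ⟨rfl, hr⟩)⟩
      · obtain ⟨a, ha⟩ := ihA x hxA hr
        exact ⟨a, Or.inl ha⟩
    · obtain ⟨a, ha⟩ := ihB x hxB hne
      exact ⟨a, Or.inr (Or.inl ha)⟩

theorem edge_asymm [DecidableEq W] (t : RT W) (ht : t.Good) : ∀ a b, t.Edge a b → ¬ t.Edge b a := by
  induction t with
  | node w => intro a b h; exact h.elim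
  | graft A B ihA ihB =>
    obtain ⟨hgA, hgB, hdis⟩ := ht
    have hd : ∀ x, x ∈ A.verts → x ∈ B.verts → False := fun x h1 h2 =>
      (Finset.disjoint_left.mp hdis) h1 h2
    have rA := RT.extract_root_mem A
    have rB := RT.extract_root_mem B
    intro a b h1 h2
    rcases h1 with h1 | h1 | ⟨h1, h1'⟩
    · rcases h2 with h2 | h2 | ⟨h2, h2'⟩
      · exact ihA hgA a b h1 h2
      · exact hd a (RT.extract_edge_mem A a b h1).1 (RT.extract_edge_mem B b a h2).2
      · have := (RT.extract_edge_mem A a b h1).2
        rw [h2] at this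
        exact hd _ this rB
    · rcases h2 with h2 | h2 | ⟨h2, h2'⟩
      · exact hd a (RT.extract_edge_mem A b a h2).2 (RT.extract_edge_mem B a b h1).1
      · exact ihB hgB a b h1 h2
      · have := (RT.extract_edge_mem B a b h1).1
        rw [h2'] at this
        exact hd _ rA this
    · rcases h2 with h2 | h2 | ⟨h2, h2'⟩
      · have := (RT.extract_edge_mem A b a h2).2
        rw [h1] at this
        exact hd _ this rB
      · have := (RT.extract_edge_mem B b a h2).1
        rw [h1'] at this
        exact hd _ rA this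
      · rw [h2] at h1'
        exact hd _ rA (h1' ▸ rB)

/-- the leaves of a tree: the vertices with exactly one neighbour -/
theorem leaves_le [Fintype W] [DecidableEq W] (G : SimpleGraph W) (t : RT W) (ht : t.Good)
    (hv : t.verts = univ) (he : ∀ a b, t.Edge a b → G.Adj a b) :
    Nat.card {w : W // Nat.card {x : W // G.Adj w x} = 1} ≤ 1 + lv t := by
  classical
  have hsub : (univ.filter (fun w : W => Nat.card {x : W // G.Adj w x} = 1)) ⊆
      insert t.root (lset t) := by
    intro w hw
    rw [Finset.mem_filter] at hw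
    rw [Finset.mem_insert]
    by_contra hcon
    rw [not_or] at hcon
    have hwv : w ∈ t.verts := by rw [hv]; exact Finset.mem_univ _
    obtain ⟨a, ha⟩ := has_parent t w hwv hcon.1
    obtain ⟨b, hb⟩ := has_child t w hwv hcon.1 hcon.2
    have hab : a ≠ b := by
      rintro rfl
      exact edge_asymm t ht _ _ ha hb
    rw [Nat.card_eq_one_iff_unique] at hw
    obtain ⟨hs, -⟩ := hw.2
    apply hab
    have := hs.elim (⟨a, (he a w ha).symm⟩ : {x : W // G.Adj w x}) ⟨b, he w b hb⟩
    exact congrArg Subtype.val this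
  rw [Nat.card_eq_fintype_card, Fintype.card_subtype]
  refine (Finset.card_le_card hsub).trans ((Finset.card_insert_le _ _).trans ?_)
  have := lset_card t
  omega

open Classical in
/-- **Oriented trees in digraphs with a large balanced subdigraph.** -/
theorem main [Fintype V] [Fintype W] (D B : V → V → Prop)
    (hD : ∀ v, ¬ D v v) (hBD : ∀ u v, B u v → D u v)
    (A : W → W → Prop) (hA : ∀ a b, A a b → ¬ A b a) (hT : (SimpleGraph.fromRel A).IsTree)
    (hbal : ∀ v, dg B true v = dg B false v) (k ℓ Δ : ℕ) (hW : Fintype.card W = k + 1)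
    (hℓ : ℓ ≤ Nat.card {w : W // Nat.card {x : W // (SimpleGraph.fromRel A).Adj w x} = 1})
    (hΔ : ∀ b v, dg D b v ≤ Δ)
    (hsum : ((Δ : ℤ) + 1) * (((k : ℤ) - 1) * Fintype.card V - ∑ v, (dg B true v : ℤ)) <
      ((ℓ : ℤ) - 1) * (∑ v, (dg D true v : ℤ) - ∑ v, (dg B true v : ℤ))) :
    ∃ f : W → V, Function.Injective f ∧ ∀ a b, A a b → D (f a) (f b) := by
  obtain ⟨t, h1, h2, h3, h4, h5⟩ := exists_RT' (SimpleGraph.fromRel A) hT
  have hk : t.size = k := by omega
  have hlv : ℓ ≤ 1 + lv t := hℓ.trans (leaves_le _ t h1 h2 h4)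
  -- degrees
  have hBleD : ∀ b u, dg B b u ≤ dg D b u := by
    intro b u
    unfold dg
    apply Finset.card_le_card
    intro v hv
    rw [Finset.mem_filter] at hv ⊢
    refine ⟨hv.1, ?_⟩
    cases b
    · simpa using hBD _ _ (by simpa using hv.2)
    · simpa using hBD _ _ (by simpa using hv.2)
  have hX : ∀ b u, dg B true u ≤ dg D b u := by
    intro b u
    cases b
    · rw [hbal]; exact hBleD _ _
    · exact hBleD _ _
  have hsw : ∀ Q : V → V → Prop, ∑ v, dg Q false v = ∑ v, dg Q true v := by
    intro Q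
    unfold dg
    simp only [Finset.card_filter]
    rw [Finset.sum_comm]
    refine Finset.sum_congr rfl fun u _ => Finset.sum_congr rfl fun v _ => ?_
    simp
  set N : ℚ := (Fintype.card V : ℚ) with hN
  set m : ℚ := ∑ v, (dg B true v : ℚ) with hm
  set M : ℚ := ∑ v, (dg D true v : ℚ) with hM
  have hMb : ∀ b, ∑ v, (dg D b v : ℚ) = M := by
    intro b
    cases b
    · rw [hM]
      exact_mod_cast hsw D
    · rfl
  have hmM : m ≤ M := Finset.sum_le_sum fun v _ => by exact_mod_cast hX true v
  have hΔ0 : (0 : ℚ) < (Δ : ℚ) + 1 := by positivity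
  have hlam : ∀ b, ∑ u, ((dg B true u : ℚ) + 1) / ((dg D b u : ℚ) + 1) ≤ N - (M - m) / (Δ + 1) := by
    intro b
    have e1 : ∀ u, ((dg B true u : ℚ) + 1) / ((dg D b u : ℚ) + 1) ≤
        1 - ((dg D b u : ℚ) - dg B true u) / (Δ + 1) := by
      intro u
      have q1 : (0 : ℚ) < (dg D b u : ℚ) + 1 := by positivity
      have q2 : (dg B true u : ℚ) ≤ dg D b u := by exact_mod_cast hX b u
      have q3 : (dg D b u : ℚ) + 1 ≤ Δ + 1 := by
        have : (dg D b u : ℚ) ≤ Δ := by exact_mod_cast hΔ b u
        linarith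
      have q4 : ((dg B true u : ℚ) + 1) / ((dg D b u : ℚ) + 1) =
          1 - ((dg D b u : ℚ) - dg B true u) / ((dg D b u : ℚ) + 1) := by
        field_simp
        ring
      rw [q4]
      have q5 : ((dg D b u : ℚ) - dg B true u) / (Δ + 1) ≤
          ((dg D b u : ℚ) - dg B true u) / ((dg D b u : ℚ) + 1) :=
        div_le_div_of_nonneg_left (by linarith) q1 q3
      linarith
    refine (Finset.sum_le_sum fun u _ => e1 u).trans (le_of_eq ?_)
    rw [Finset.sum_sub_distrib, ← Finset.sum_div, Finset.sum_sub_distrib, hMb b, ← hm]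
    simp [hN]
  have hs : ((Δ : ℚ) + 1) * (((k : ℚ) - 1) * N - m) < ((ℓ : ℚ) - 1) * (M - m) := by
    have := (Int.cast_lt (R := ℚ)).2 hsum
    push_cast at this
    rw [hN, hm, hM]
    exact this
  have hs2 : ((k : ℚ) - 1) * N - m < ((ℓ : ℚ) - 1) * ((M - m) / (Δ + 1)) := by
    rw [← mul_div_assoc, lt_div_iff₀ hΔ0]
    linarith
  have hlvq : ((ℓ : ℚ) - 1) ≤ lv t := by
    have : (ℓ : ℚ) ≤ 1 + lv t := by exact_mod_cast hlv
    linarith
  have hg0 : 0 ≤ (M - m) / ((Δ : ℚ) + 1) := div_nonneg (by linarith) hΔ0.le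
  obtain ⟨f, hf1, hf2⟩ := embed_RT D B hD hBD A hA hbal (N - (M - m) / (Δ + 1)) hlam t h1
    (fun a b hab => by
      have := h4 a b hab
      rw [SimpleGraph.fromRel_adj] at this
      exact this.2) (by
      rw [Finset.sum_add_distrib, Finset.sum_const, nsmul_eq_mul, Finset.card_univ, hk, ← hm, ← hN]
      have := mul_le_mul_of_nonneg_right hlvq hg0
      linarith)
  rw [h2, Finset.coe_univ, Set.injOn_univ] at hf1
  refine ⟨f, hf1, fun a b hab => ?_⟩
  have hne : a ≠ b := fun h => hA a b hab (h ▸ hab)
  rcases h3 a b (by rw [SimpleGraph.fromRel_adj]; exact ⟨hne, Or.inl hab⟩) with h | h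
  · rcases hf2 a b h with ⟨-, h⟩ | ⟨h, -⟩
    · exact h
    · exact absurd h (hA a b hab)
  · rcases hf2 b a h with ⟨h, -⟩ | ⟨-, h⟩
    · exact absurd h (hA a b hab)
    · exact h

end Run7.h569.SU
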